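import Mathlib
import Pool.Agent.Lib.MP_8fa6fd_gt.Defs
import Pool.Agent.Lib.MP_8fa6fd_gt.Weak
import Pool.Agent.Lib.MP_8fa6fd_gt.Matrix


namespace Pool.Agent.Results.MP_8fa6fd_gt.Main

open Pool.Agent.Lib.MP_8fa6fd_gt Topology

universe u

/-- Every infinite Boolean group that admits a Hausdorff pseudocompact group topology admits a
Hausdorff pseudocompact group topology that is Pontryagin reflexive and not selectively
pseudocompact. No set theoretic hypothesis is used. -/
theorem result (G : Type u) [AddCommGroup G] [Infinite G] (hB : ∀ x : G, x + x = 0)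
    (h : ∃ τ : TopologicalSpace G, IsPseudocompactGroupTopology G τ) :
    ∃ τ : TopologicalSpace G, IsPseudocompactGroupTopology G τ ∧ @Reflexive G _ τ ∧
      ¬ @SelectivelyPseudocompact G τ := by
  obtain ⟨σ, χ, hinj, hfull⟩ : ∃ (σ : Type u) (χ : σ → (G →+ ZMod 2)),
      (∀ g, (∀ s, χ s g = 0) → g = 0) ∧
      ∀ (a : ℕ → σ) (p : σ → ZMod 2), ∃ g, ∀ n, χ (a n) g = p (a n) := by
    obtain ⟨τ, h1, h2, h3⟩ := h
    exact exists_family hB h3
  obtain ⟨C, hC, ψ, hP, hN⟩ := exists_good_family hB χ hinj hfull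
  have hP' : ∀ S : Set C, S.Countable → ∀ p : C → ZMod 2, ∃ g, ∀ c ∈ S, ψ c g = p c :=
    fun S hS p => full_countable hP hS p
  let Ψ : G →+ (C → ZMod 2) := AddMonoidHom.pi ψ
  letI τ : TopologicalSpace G := TopologicalSpace.induced Ψ inferInstance
  have hτ : IsInducing fun (g : G) (c : C) => ψ c g := ⟨rfl⟩
  have hG : IsTopologicalAddGroup G := topologicalAddGroup_induced Ψ
  have hT : T2Space G := IsEmbedding.t2Space ⟨hτ, injective_weak hB hN⟩
  exact ⟨τ, ⟨hG, hT, pseudocompact_weak hτ hP'⟩, reflexive_weak hB hτ hP' hN,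
    not_selectively_weak hB hτ hP' hN⟩

end Pool.Agent.Results.MP_8fa6fd_gt.Main
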